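import Mathlib
import Pool.Agent.H80.FptDefs
import Pool.Agent.H80.Fpt

open Pool.Agent.H80.Fpt

theorem Pool.Agent.Results.MP_80c6d6_ag.NoLimit.result (p : ℕ) [Fact p.Prime] :
    ∃ (R : Type) (_ : CommRing R) (_ : IsLocalRing R) (_ : IsNoetherianRing R) (_ : CharP R p),
      (frobenius R p).Finite ∧ IsReduced R ∧ Splits p 1 (1 : R) ∧
      ∃ I : ℕ → Ideal R,
        (∀ m, 1 ≤ m → I m ≠ ⊤ ∧ ∃ x ∈ I m, ∀ P ∈ minimalPrimes R, x ∉ P) ∧
        (∀ m n, I m * I n ≤ I (m + n)) ∧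
        ¬ ∃ L : ENNReal,
          Filter.Tendsto (fun m : ℕ => (m : ENNReal) * fpt p (I m)) Filter.atTop (nhds L) := by
  have hp : p.Prime := Fact.out
  have hs : ∀ e, Splits p e (1 : R p) := fun e => by
    simpa using splits_z p e 0 (pow_pos hp.pos e)
  refine ⟨R p, inferInstance, inferInstance, inferInstance, inferInstance, fFinite p, ?_, hs 1,
    I p, fun m hm => ⟨I_ne_top p m hm, I_meets p m⟩, I_mul p, not_tendsto p⟩
  constructor
  rintro x ⟨n, hn⟩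
  obtain ⟨φ, hφ, h1⟩ := hs n
  have h2 : x ^ p ^ n = 0 := pow_eq_zero_of_le (Nat.lt_pow_self hp.one_lt).le hn
  have h3 := hφ x 1
  rw [h2, zero_mul, map_zero, h1, mul_one] at h3
  exact h3.symm
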